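import Mathlib

namespace Pool.Agent.H.MP_ae074a_al

section Tate
variable {F E H : Type} [Field F] [CommRing E] [Algebra F E] [AddCommGroup H] [Fintype H]
  (σ : H → E →ₐ[F] E)

noncomputable def tr : E →ₗ[F] E := ∑ h, (σ h).toLinearMap

theorem tr_apply (x : E) : tr σ x = ∑ h, σ h x := by simp [tr]

variable (hσ : ∀ a b x, σ a (σ b x) = σ (a + b) x) (h0 : ∀ x, σ 0 x = x)
  (l : E →ₗ[F] F) (hl : ∀ h x, l (σ h x) = l x) (K : ℕ)

include hσ in
theorem tr_tr (e x : E) : tr σ (tr σ e * x) = tr σ e * tr σ x := by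
  rw [tr_apply, tr_apply σ x, Finset.mul_sum]
  refine Finset.sum_congr rfl fun h _ => ?_
  rw [map_mul, tr_apply, map_sum]
  simp only [hσ]
  exact congrArg (· * _) (Equiv.sum_comp (Equiv.addLeft h) fun a => σ a e)

include hσ h0 hl in
theorem l_tr (e x : E) : l (tr σ e * x) = l (e * tr σ x) := by
  rw [tr_apply, tr_apply, Finset.sum_mul, Finset.mul_sum, map_sum, map_sum,
    ← Equiv.sum_comp (Equiv.neg H)]
  refine Finset.sum_congr rfl fun h _ => ?_
  rw [← hl h, map_mul, hσ]
  simp [h0]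

def KK : Submodule F (F × (ℕ → E)) where
  carrier := {y | y.1 = 0 ∧ (∀ n, tr σ (y.2 n) = 0) ∧ l (y.2 K) = 0}
  add_mem' := fun ha hb => ⟨by simp [ha.1, hb.1], fun n => by simp [ha.2.1 n, hb.2.1 n],
    by simp [ha.2.2, hb.2.2]⟩
  zero_mem' := ⟨rfl, fun n => by simp, by simp⟩
  smul_mem' := fun c _ ha => ⟨by simp [ha.1], fun n => by simp [ha.2.1 n], by simp [ha.2.2]⟩

noncomputable def SS (e : E) : F × (ℕ → E) →ₗ[F] F × (ℕ → E) where
  toFun y := (0, fun n => Nat.casesOn n (y.1 • e) fun m => tr σ e * y.2 m)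
  map_add' a b := by
    ext n
    · simp
    · cases n <;> simp [add_smul, mul_add]
  map_smul' c a := by
    ext n
    · simp
    · cases n <;> simp [mul_smul]

include hσ h0 hl in
theorem SS_le (e : E) : KK σ l K ≤ (KK σ l K).comap (SS σ e) := by
  rintro ⟨r, x⟩ ⟨h1, h2, h3⟩
  obtain rfl : r = 0 := h1
  refine ⟨rfl, fun n => ?_, ?_⟩
  · cases n with
    | zero => simp [SS]
    | succ n => exact (tr_tr σ hσ _ _).trans (by rw [h2, mul_zero])
  · cases K with
    | zero => simp [SS]
    | succ n => exact (l_tr σ hσ h0 l hl _ _).trans (by rw [h2, mul_zero, map_zero])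

include hσ h0 hl in
theorem tate : ∃ (T : Type) (_ : CommRing T) (_ : Algebra F T) (z : E →ₗ[F] T),
    ∀ (ι : Type) (s : Finset ι) (e : ι → E) (e0 : E),
      (tr σ (e0 * ∏ i ∈ s, tr σ (e i)) = 0 → s.card ≠ K → z e0 * ∏ i ∈ s, z (e i) = 0) ∧
      (s.card = K → l (e0 * ∏ i ∈ s, tr σ (e i)) ≠ 0 → z e0 * ∏ i ∈ s, z (e i) ≠ 0) := by
  classical
  let Z : E → Module.End F ((F × (ℕ → E)) ⧸ KK σ l K) := fun e =>
    (KK σ l K).mapQ _ (SS σ e) (SS_le σ hσ h0 l hl K e)
  have hZ : ∀ e y, Z e (Submodule.Quotient.mk y) = Submodule.Quotient.mk (SS σ e y) :=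
    fun e y => rfl
  have ext : ∀ f g : Module.End F ((F × (ℕ → E)) ⧸ KK σ l K),
      (∀ y, f (Submodule.Quotient.mk y) = g (Submodule.Quotient.mk y)) → f = g :=
    fun f g h => LinearMap.ext fun q => Submodule.Quotient.induction_on _ q h
  have := Algebra.isMulCommutative_adjoin F (s := Set.range Z) (by
    rintro _ ⟨a, rfl⟩ _ ⟨b, rfl⟩
    refine ext _ _ fun y => (Submodule.Quotient.eq _).2 ⟨by simp [SS], fun n => ?_, ?_⟩
    · rcases n with _ | _ | n <;> simp [SS, tr_tr σ hσ, mul_left_comm]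
      rw [mul_comm, sub_self]
    · rcases K with _ | _ | n <;> simp [SS, mul_left_comm]
      rw [l_tr σ hσ h0 l hl, mul_comm a, sub_self])
  let T := Algebra.adjoin F (Set.range Z)
  let _ : CommRing T := { (inferInstance : Ring T) with mul_comm := fun a b => mul_comm' a b }
  let z : E →ₗ[F] T :=
    { toFun := fun e => ⟨Z e, Algebra.subset_adjoin ⟨e, rfl⟩⟩
      map_add' := fun a b => Subtype.ext (ext _ _ fun y => congrArg Submodule.Quotient.mk
        (show SS σ (a + b) y = SS σ a y + SS σ b y by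
          ext n
          · simp [SS]
          · cases n <;> simp [SS, add_mul]))
      map_smul' := fun c a => Subtype.ext (ext _ _ fun y => congrArg Submodule.Quotient.mk
        (show SS σ (c • a) y = c • SS σ a y by
          ext n
          · simp [SS]
          · cases n <;> simp [SS, smul_comm c])) }
  refine ⟨T, inferInstance, inferInstance, z, fun ι s e e0 => ?_⟩
  have key : ∀ (s : Finset ι) (y : F × (ℕ → E)), ∃ x : ℕ → E,
      (z e0 * ∏ i ∈ s, z (e i) : T).1 (Submodule.Quotient.mk y) = Submodule.Quotient.mk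
        (0, Pi.single s.card (y.1 • (e0 * ∏ i ∈ s, tr σ (e i))) +
          (tr σ e0 * ∏ i ∈ s, tr σ (e i)) • x) ∧ (y.2 = 0 → x = 0) := by
    intro s y
    induction s using Finset.induction_on with
    | empty =>
      refine ⟨fun n => Nat.casesOn n 0 y.2, ?_, fun h => funext fun n => by cases n <;> simp [h]⟩
      rw [Finset.prod_empty, mul_one]
      refine (hZ _ _).trans (congrArg _ ?_)
      ext n
      · rfl
      · cases n <;> simp [SS]
    | insert a s ha ih =>
      obtain ⟨x, h1, h2⟩ := ih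
      refine ⟨fun n => Nat.casesOn n 0 x, ?_,
        fun h => funext fun n => by cases n <;> simp [h2 h]⟩
      rw [Finset.prod_insert ha, mul_left_comm]
      refine (congrArg (Z (e a)) h1).trans ((hZ _ _).trans (congrArg _ ?_))
      rw [Finset.card_insert_of_notMem ha, Finset.prod_insert ha]
      ext n
      · rfl
      · cases n with
        | zero => simp [SS]
        | succ n =>
          simp only [SS, LinearMap.coe_mk, AddHom.coe_mk, Pi.add_apply, Pi.single_apply,
            Pi.smul_apply, smul_eq_mul, Nat.add_right_cancel_iff]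
          split_ifs <;> simp [mul_add, mul_left_comm, mul_assoc]
  have inv : ∀ s : Finset ι, tr σ (e0 * ∏ i ∈ s, tr σ (e i)) = tr σ e0 * ∏ i ∈ s, tr σ (e i) := by
    intro s
    induction s using Finset.induction_on with
    | empty => simp
    | insert a s ha ih => rw [Finset.prod_insert ha, mul_left_comm, tr_tr σ hσ, ih, mul_left_comm]
  refine ⟨fun h1 h2 => Subtype.ext (ext _ _ fun y => ?_), fun h1 h2 h3 => h2 ?_⟩
  · obtain ⟨x, h3, -⟩ := key s y
    rw [h3, ← inv, h1, zero_smul, add_zero]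
    refine (Submodule.Quotient.mk_eq_zero _).2 ⟨rfl, fun n => ?_, ?_⟩
    · simp only [Pi.single_apply]
      split_ifs <;> simp [h1]
    · simp [Pi.single_eq_of_ne h2.symm]
  · obtain ⟨x, h4, h5⟩ := key s (1, 0)
    rw [h3, h5 rfl, smul_zero, add_zero, h1] at h4
    simpa using ((Submodule.Quotient.mk_eq_zero _).1 h4.symm).2.2

end Tate

end Pool.Agent.H.MP_ae074a_al
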