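import Pool.Agent.H.MP_ae074a_al.A

namespace Pool.Agent.H.MP_ae074a_al

theorem nu_eq {R : Type} [CommRing R] (p : ℕ) [hp : Fact p.Prime] [CharP R p] (x : R) :
    ∑ t ∈ Finset.range p, x ^ t = (x - 1) ^ (p - 1) := by
  have h := Polynomial.cyclotomic_mul_prime_eq_pow_of_not_dvd R (p := p) (n := 1)
    (by simpa using hp.out.one_lt.ne')
  rw [one_mul, Polynomial.cyclotomic_prime, Polynomial.cyclotomic_one] at h
  simpa [Polynomial.eval_finsetSum] using congrArg (Polynomial.eval x) h

theorem sq_zero {R : Type} [CommRing R] {p : ℕ} [hp : Fact p.Prime] {x : R} (h : x ^ p = 0) :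
    x ^ (p - 1) * x ^ (p - 1) = 0 := by
  have := hp.out.two_le
  rw [← pow_add]
  exact pow_eq_zero_of_le (by omega) h

section GA
variable (R ι : Type) [CommRing R] (p : ℕ) [hp : Fact p.Prime] [Fintype ι] [DecidableEq ι]

noncomputable def xv (i : ι) : AddMonoidAlgebra R (ι → ZMod p) :=
  AddMonoidAlgebra.single (Pi.single i 1) 1 - 1

instance gaChar [CharP R p] : CharP (AddMonoidAlgebra R (ι → ZMod p)) p :=
  charP_of_injective_algebraMap (R := R) (fun a b h => by
    simpa using congrArg (fun x => AddMonoidAlgebra.coeff x 0) h) p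

theorem xv_pow [CharP R p] (i : ι) : xv R ι p i ^ p = 0 := by
  rw [xv, sub_pow_char, AddMonoidAlgebra.single_pow, one_pow, one_pow, sub_eq_zero,
    AddMonoidAlgebra.one_def]
  congr 1
  ext j
  simp

theorem xv_prod [CharP R p] : (∏ i, xv R ι p i ^ (p - 1)).coeff 0 = 1 := by
  simp only [xv, ← nu_eq, AddMonoidAlgebra.single_pow, one_pow]
  rw [Finset.prod_univ_sum, AddMonoidAlgebra.coeff_sum, Finsupp.finsetSum_apply,
    Finset.sum_eq_single_of_mem (fun _ => 0) (by simp [hp.out.pos])]
  · simp
  · intro t ht h0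
    rw [AddMonoidAlgebra.prod_single, AddMonoidAlgebra.coeff_single, Finsupp.single_eq_of_ne']
    intro h
    refine h0 (funext fun i => ?_)
    have h1 := congrFun h i
    simp only [Finset.sum_apply, Pi.smul_apply, Pi.single_apply, smul_ite, smul_zero,
      Finset.sum_ite_eq, Finset.mem_univ, if_true, Pi.zero_apply] at h1
    rw [nsmul_eq_mul, mul_one] at h1
    exact Nat.eq_zero_of_dvd_of_lt ((ZMod.natCast_eq_zero_iff _ _).1 h1)
      (Finset.mem_range.1 (Fintype.mem_piFinset.1 ht i))

end GA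

section Win
variable {p n : ℕ} [hp : Fact p.Prime] [NeZero n]

def Good (s : ZMod n → ZMod p) : Prop :=
  s 0 = 0 ∧ ∀ j, Function.Injective fun t : Fin p => s (j + (t : ℕ))

open Classical in
theorem win {E : Type} [CommRing E] (y : ZMod n → ZMod p → E) (hy : ∀ j h, y j h * y j h = 0) :
    (∏ t ∈ Finset.range p, y (0 - t) 0) * ∏ i ∈ Finset.univ.erase (0 : ZMod n),
      ∑ h, ∏ t ∈ Finset.range p, y (i - t) h =
      (Finset.univ.filter (Good (p := p) (n := n))).card • ∏ j, ∏ h, y j h := by
  have e1 := Finset.prod_univ_sum (fun i : ZMod n => if i = 0 then {0} else Finset.univ)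
    fun i h => ∏ t ∈ Finset.range p, y (i - t) h
  rw [← Finset.mul_prod_erase _ _ (Finset.mem_univ 0), if_pos rfl, Finset.sum_singleton,
    Finset.prod_congr (s₁ := Finset.univ.erase (0 : ZMod n)) rfl fun i hi => by
      rw [if_neg (Finset.ne_of_mem_erase hi)]] at e1
  have e2 : ∀ s : ZMod n → ZMod p, ∏ i, ∏ t ∈ Finset.range p, y (i - t) (s i) =
      ∏ j, ∏ t : Fin p, y j (s (j + (t : ℕ))) := fun s => by
    simp only [Finset.prod_range]
    rw [Finset.prod_comm, Finset.prod_comm (s := Finset.univ (α := ZMod n))]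
    refine Finset.prod_congr rfl fun t _ => ?_
    rw [← Equiv.prod_comp (Equiv.addRight ((t : ℕ) : ZMod n))]
    simp
  rw [e1, ← Finset.sum_const]
  symm
  refine Finset.sum_subset_zero_on_sdiff (fun s hs => ?_) (fun s hs => ?_) fun s hs => ?_
  · refine Fintype.mem_piFinset.2 fun i => ?_
    split_ifs with h
    · simpa [h] using (Finset.mem_filter.1 hs).2.1
    · simp
  all_goals rw [e2]
  · obtain ⟨h1, h2⟩ := Finset.mem_sdiff.1 hs
    have h3 := Fintype.mem_piFinset.1 h1 0
    simp only [if_true, Finset.mem_singleton] at h3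
    simp only [Finset.mem_filter, Finset.mem_univ, true_and, Good, h3, not_forall,
      Function.Injective] at h2
    obtain ⟨j, a, b, h4, h5⟩ := h2
    refine Finset.prod_eq_zero (Finset.mem_univ j) ?_
    rw [← Finset.mul_prod_erase _ _ (Finset.mem_univ a), ← Finset.mul_prod_erase _ _
      (Finset.mem_erase.2 ⟨Ne.symm h5, Finset.mem_univ b⟩), ← mul_assoc, h4, hy, zero_mul]
  · refine Finset.prod_congr rfl fun j _ => (Function.Bijective.prod_comp
      ((Fintype.bijective_iff_injective_and_card _).2 ⟨(Finset.mem_filter.1 hs).2.2 j, ?_⟩) _).symm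
    simp

theorem good_per {s : ZMod n → ZMod p} (hs : Good s) (j : ZMod n) : s (j + (p : ℕ)) = s j := by
  obtain ⟨t, ht⟩ := ((Fintype.bijective_iff_injective_and_card _).2
    ⟨hs.2 (j + 1), by simp⟩).2 (s j)
  by_cases h : t.1 + 1 < p
  · have := hs.2 j (a₁ := ⟨t.1 + 1, h⟩) (a₂ := ⟨0, hp.out.pos⟩)
      (by simpa [add_assoc, add_comm (1 : ZMod n)] using ht)
    simp at this
  · have : p = t.1 + 1 := by omega
    rw [← ht]
    congr 1
    rw [add_assoc, add_comm 1, ← Nat.cast_add_one, ← this]

open Classical in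
theorem good_card (hn : p ∣ n) :
    (Finset.univ.filter (Good (p := p) (n := n))).card = (p - 1).factorial := by
  obtain ⟨q, rfl⟩ : ∃ q, p = q + 1 := ⟨p - 1, by have := hp.out.pos; omega⟩
  let c : ZMod n →+* ZMod (q + 1) := ZMod.castHom hn (ZMod (q + 1))
  have hc : ∀ t : Fin (q + 1), c (t : ℕ) = t := fun t => by
    rw [map_natCast]; exact Fin.cast_val_eq_self t
  have e0 : (q + 1 - 1).factorial = (Finset.univ : Finset (Equiv.Perm (Fin q))).card := by
    simp [Fintype.card_perm]
  rw [e0]
  symm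
  refine Finset.card_bij (fun e _ j => Equiv.Perm.decomposeFin.symm (0, e) (c j))
    (fun e _ => Finset.mem_filter.2 ⟨Finset.mem_univ _, ?_, fun j a b h => ?_⟩)
    (fun e _ e' _ h => ?_) fun s hs => ?_
  · exact (congrArg (Equiv.Perm.decomposeFin.symm (0, e)) (map_zero c)).trans
      (Equiv.Perm.decomposeFin_symm_apply_zero _ _)
  · have : c (j + (a : ℕ)) = c (j + (b : ℕ)) := Equiv.injective _ h
    rw [map_add, map_add, hc, hc] at this
    exact add_left_cancel (G := ZMod (q + 1)) this
  · have : Equiv.Perm.decomposeFin.symm (0, e) = Equiv.Perm.decomposeFin.symm (0, e') :=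
      Equiv.ext fun t => by simpa only [hc] using congrFun h (t : ℕ)
    simpa using this
  · have hs := (Finset.mem_filter.1 hs).2
    let π : Equiv.Perm (Fin (q + 1)) := Equiv.ofBijective _
      ((Fintype.bijective_iff_injective_and_card _).2 ⟨hs.2 0, by simp⟩)
    obtain ⟨⟨a, e⟩, he⟩ := Equiv.Perm.decomposeFin.symm.surjective π
    have ha : a = 0 := by
      rw [← Equiv.Perm.decomposeFin_symm_apply_zero a e, he]
      exact (congrArg s (by simp)).trans hs.1
    subst ha
    refine ⟨e, Finset.mem_univ _, funext fun j => ?_⟩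
    rw [he]
    obtain ⟨m, rfl⟩ := ZMod.natCast_zmod_surjective j
    induction m using Nat.strong_induction_on with
    | h m ih =>
      by_cases h : m < q + 1
      · rw [hc ⟨m, h⟩]; exact congrArg s (zero_add _)
      · obtain ⟨m, rfl⟩ : ∃ k, m = k + (q + 1) := ⟨m - (q + 1), by omega⟩
        rw [Nat.cast_add, good_per hs, ← ih m (by omega), map_add, map_natCast c (q + 1),
          ZMod.natCast_self, add_zero]

end Win

end Pool.Agent.H.MP_ae074a_al
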