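import Pool.Agent.H.MP_ae074a_al.B

namespace Pool.Agent.H.MP_ae074a_al
open scoped commutatorElement

section Words
variable {G G' I : Type} [Group G] [Group G'] [Ring I] (p : ℕ)

def cw (x : I → G) (i : I) : ℕ → G
  | 0 => x i ^ p
  | t + 1 => (cw x i t * x (i - (t + 1 : ℕ))) ^ p * (x (i - (t + 1 : ℕ)) ^ p)⁻¹

def vl (x : I → G) (y y' : G) (L : List I) : G :=
  L.foldr (fun i w => ⁅cw p x i (p - 1), w⁆) ⁅y' ^ p, ⁅y', y⁆⁆

theorem map_cw (φ : G →* G') (x : I → G) (i : I) (t : ℕ) :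
    φ (cw p x i t) = cw p (fun j => φ (x j)) i t := by
  induction t with
  | zero => simp [cw]
  | succ t ih => simp [cw, ih]

theorem map_vl (φ : G →* G') (x : I → G) (y y' : G) (L : List I) :
    φ (vl p x y y' L) = vl p (fun j => φ (x j)) (φ y) (φ y') L := by
  induction L with
  | nil => simp [vl, map_commutatorElement]
  | cons i L ih =>
    simp only [vl, List.foldr_cons, map_commutatorElement, map_cw] at ih ⊢
    rw [ih]

end Words

@[ext]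
structure GG (Γ : Type) {V T : Type} [AddCommGroup V] [CommRing T] (ρ : AddChar V T) where
  f : Γ → T
  a : V
  g : Γ

namespace GG
variable {Γ V T : Type} [CommGroup Γ] [AddCommGroup V] [DistribMulAction Γ V] [CommRing T]
  {ρ : AddChar V T}

instance : Mul (GG Γ ρ) :=
  ⟨fun x y => ⟨fun δ => x.f δ + ρ (δ • x.a) * y.f (δ * x.g), x.a + x.g • y.a, x.g * y.g⟩⟩
instance : One (GG Γ ρ) := ⟨⟨0, 0, 1⟩⟩
instance : Inv (GG Γ ρ) :=
  ⟨fun x => ⟨fun δ => -(ρ (δ • -(x.g⁻¹ • x.a)) * x.f (δ * x.g⁻¹)), -(x.g⁻¹ • x.a), x.g⁻¹⟩⟩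

@[simp] theorem mul_f (x y : GG Γ ρ) (δ : Γ) :
    (x * y).f δ = x.f δ + ρ (δ • x.a) * y.f (δ * x.g) := rfl
@[simp] theorem mul_a (x y : GG Γ ρ) : (x * y).a = x.a + x.g • y.a := rfl
@[simp] theorem mul_g (x y : GG Γ ρ) : (x * y).g = x.g * y.g := rfl
@[simp] theorem one_f (δ : Γ) : (1 : GG Γ ρ).f δ = 0 := rfl
@[simp] theorem one_a : (1 : GG Γ ρ).a = 0 := rfl
@[simp] theorem one_g : (1 : GG Γ ρ).g = 1 := rfl

instance : Group (GG Γ ρ) := Group.ofLeftAxioms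
  (fun x y z => by
    ext
    · simp [AddChar.map_add_eq_mul, mul_smul, mul_add, add_assoc, mul_assoc]
    · simp [mul_smul, add_assoc]
    · simp [mul_assoc])
  (fun x => by ext <;> simp)
  (fun x => by
    ext
    · exact neg_add_cancel _
    · exact neg_add_cancel _
    · exact inv_mul_cancel _)

@[simp] theorem inv_f (x : GG Γ ρ) (δ : Γ) :
    x⁻¹.f δ = -(ρ (δ • -(x.g⁻¹ • x.a)) * x.f (δ * x.g⁻¹)) := rfl
@[simp] theorem inv_a (x : GG Γ ρ) : x⁻¹.a = -(x.g⁻¹ • x.a) := rfl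
@[simp] theorem inv_g (x : GG Γ ρ) : x⁻¹.g = x.g⁻¹ := rfl

theorem pow_g (x : GG Γ ρ) (n : ℕ) : (x ^ n).g = x.g ^ n := by
  induction n with
  | zero => simp
  | succ n ih => simp [pow_succ, ih]

theorem pow_a (x : GG Γ ρ) (n : ℕ) : (x ^ n).a = ∑ t ∈ Finset.range n, x.g ^ t • x.a := by
  induction n with
  | zero => simp
  | succ n ih => simp [pow_succ, ih, pow_g, Finset.sum_range_succ]

theorem pow_f (x : GG Γ ρ) (h1 : x.a = 0) (h2 : x.g = 1) (n : ℕ) (δ : Γ) :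
    (x ^ n).f δ = n * x.f δ := by
  induction n with
  | zero => simp
  | succ n ih => simp [pow_succ, ih, pow_g, pow_a, h1, h2, add_mul]

theorem comm_g (x y : GG Γ ρ) : ⁅x, y⁆.g = 1 := by simp [commutatorElement_def]

theorem comm_a (x y : GG Γ ρ) (h : x.g = 1) : ⁅x, y⁆.a = x.a - y.g • x.a := by
  simp [commutatorElement_def, h]
  abel

theorem comm_a' (x w : GG Γ ρ) (h1 : w.a = 0) (h2 : w.g = 1) : ⁅x, w⁆.a = 0 := by
  simp [commutatorElement_def, h1, h2]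

theorem comm_f (x w : GG Γ ρ) (h1 : w.a = 0) (h2 : w.g = 1) (δ : Γ) :
    ⁅x, w⁆.f δ = ρ (δ • x.a) * w.f (δ * x.g) - w.f δ := by
  simp [commutatorElement_def, h1, h2, ← mul_assoc, ← AddChar.map_add_eq_mul, mul_smul]
  ring

variable {I : Type} [Ring I] {p : ℕ} (hp : ∀ g : Γ, g ^ p = 1)
include hp

theorem cw_g (x : I → GG Γ ρ) (i : I) (t : ℕ) : (cw p x i t).g = 1 := by
  cases t <;> simp [cw, pow_g, hp]

theorem cw_a (x : I → GG Γ ρ) (i : I) (t : ℕ) : (cw p x i (t + 1)).a =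
    ∑ s ∈ Finset.range p, (x (i - (t + 1 : ℕ))).g ^ s • (cw p x i t).a := by
  simp [cw, pow_g, hp, pow_a, cw_g hp, Finset.sum_add_distrib]

theorem vl_f (x : I → GG Γ ρ) (y y' : GG Γ ρ) (L : List I) :
    (vl p x y y' L).g = 1 ∧ (vl p x y y' L).a = 0 ∧ ∀ δ, (vl p x y y' L).f δ =
      (L.map fun i => ρ (δ • (cw p x i (p - 1)).a) - 1).prod * ⁅y' ^ p, ⁅y', y⁆⁆.f δ := by
  induction L with
  | nil => exact ⟨comm_g _ _, by simp [vl, comm_a, pow_g, hp, comm_g], fun δ => by simp [vl]⟩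
  | cons i L ih =>
    refine ⟨comm_g _ _, comm_a' _ _ ih.2.1 ih.1, fun δ => (comm_f _ _ ih.2.1 ih.1 δ).trans ?_⟩
    rw [cw_g hp, mul_one, ih.2.2, List.map_cons, List.prod_cons]
    ring

end GG

end Pool.Agent.H.MP_ae074a_al
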