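import Pool.Agent.H.MP_ae074a_al.C

namespace Pool.Agent.H.MP_ae074a_al
open scoped commutatorElement
open Polynomial

def Phi (p : ℕ) {G : Type} [Group G] (K : Subgroup G) : Subgroup G :=
  Subgroup.closure {y | ∃ x ∈ K, x ^ p = y} ⊔ ⁅K, K⁆

theorem Phi_map (p : ℕ) {G G' : Type} [Group G] [Group G'] (K : Subgroup G) (f : G →* G') :
    (Phi p K).map f = Phi p (K.map f) := by
  rw [Phi, Phi, Subgroup.map_sup, Subgroup.map_commutator, MonoidHom.map_closure]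
  congr 2
  ext y
  constructor
  · rintro ⟨_, ⟨x, hx, rfl⟩, rfl⟩
    exact ⟨_, ⟨x, hx, rfl⟩, (map_pow _ _ _).symm⟩
  · rintro ⟨_, ⟨x, hx, rfl⟩, rfl⟩
    exact ⟨_, ⟨x, hx, rfl⟩, map_pow _ _ _⟩

theorem Phi_le {p : ℕ} {G : Type} [Group G] {K L : Subgroup G} :
    Phi p K ≤ L ↔ (∀ x ∈ K, x ^ p ∈ L) ∧ ∀ x ∈ K, ∀ y ∈ K, ⁅x, y⁆ ∈ L := by
  rw [Phi, sup_le_iff, Subgroup.commutator_le, Subgroup.closure_le]
  exact and_congr_left' ⟨fun h x hx => h ⟨x, hx, rfl⟩, fun h _ ⟨x, hx, e⟩ => e ▸ h x hx⟩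

theorem Phi_mono {p : ℕ} {G : Type} [Group G] {K L : Subgroup G} (h : K ≤ L) :
    Phi p K ≤ Phi p L :=
  Phi_le.2 ⟨fun x hx => (Phi_le.1 le_rfl).1 x (h hx),
    fun x hx y hy => (Phi_le.1 le_rfl).2 x (h hx) y (h hy)⟩

variable (E : Type) [CommRing E] (p : ℕ)

def Gam : Subgroup (E[X])ˣ where
  carrier := {γ | (γ : E[X]).coeff 0 = 1 ∧ γ ^ p = 1}
  one_mem' := by simp
  mul_mem' := fun ha hb => ⟨by simp [ha.1, hb.1], by rw [mul_pow, ha.2, hb.2, mul_one]⟩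
  inv_mem' := fun {a} ha => ⟨by
    have := congrArg (fun x : E[X] => x.coeff 0) a.inv_mul
    simpa only [mul_coeff_zero, ha.1, mul_one, coeff_one_zero] using this, by rw [inv_pow, ha.2, inv_one]⟩

variable {E p}

theorem gam_pow (γ : Gam E p) : γ ^ p = 1 := Subtype.ext γ.2.2

variable {ι T : Type} [CommRing T]

theorem gam_smul (γ : Gam E p) (a : ι → E[X]) (m : ι) : (γ • a) m = γ.1.1 * a m := rfl

noncomputable def rho [Fintype ι] (u : ι → T) (hu : ∀ m, u m * u m = 0) (zz : ι → E[X] →+ T) :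
    AddChar (ι → E[X]) T where
  toFun a := ∏ m, (1 + u m * zz m (a m))
  map_zero_eq_one' := by simp
  map_add_eq_mul' a b := by
    rw [← Finset.prod_mul_distrib]
    refine Finset.prod_congr rfl fun m _ => ?_
    rw [Pi.add_apply, map_add]
    linear_combination (-(zz m (a m) * zz m (b m))) * hu m

def GS (F : Type) [CommRing F] [Algebra F E] (p : ℕ) (ρ : AddChar (ι → E[X]) T) :
    Subgroup (GG (Gam E p) ρ) where
  carrier := {x | ∀ m, ∃ r : F, (x.a m).coeff 0 = algebraMap F E r}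
  one_mem' := fun m => ⟨0, by simp⟩
  mul_mem' := fun {a b} ha hb m => by
    obtain ⟨r, hr⟩ := ha m
    obtain ⟨s, hs⟩ := hb m
    exact ⟨r + s, by simp [-Pi.smul_apply, gam_smul, hr, hs, a.g.2.1]⟩
  inv_mem' := fun {a} ha m => by
    obtain ⟨r, hr⟩ := ha m
    exact ⟨-r, by simp only [GG.inv_a, Pi.neg_apply, gam_smul, coeff_neg, mul_coeff_zero,
      a.g⁻¹.2.1, hr, one_mul, map_neg]⟩

variable {ρ : AddChar (ι → E[X]) T}

def LL (ρ : AddChar (ι → E[X]) T) (p n : ℕ) : Subgroup (GG (Gam E p) ρ) where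
  carrier := {x | x.g = 1 ∧ ∀ m, X ^ n ∣ x.a m}
  one_mem' := ⟨rfl, fun m => by simp⟩
  mul_mem' := fun ha hb => ⟨by simp [ha.1, hb.1], fun m => by
    simpa [ha.1] using dvd_add (ha.2 m) (hb.2 m)⟩
  inv_mem' := fun ha => ⟨by simp [ha.1], fun m => by simpa [ha.1] using ha.2 m⟩

theorem lcs_le (n : ℕ) :
    (⊤ : Subgroup (GG (Gam E p) ρ)).lowerCentralSeries (n + 1) ≤ LL ρ p (n + 1) := by
  induction n with
  | zero =>
    refine Subgroup.commutator_le.2 fun x _ y _ => ⟨GG.comm_g _ _, fun m => ?_⟩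
    have : ⁅x, y⁆.a = x.a - y.g • x.a + (x.g • y.a - y.a) := by
      simp [commutatorElement_def, smul_smul, mul_comm x.g y.g, mul_assoc]
      abel
    rw [this, zero_add, pow_one, X_dvd_iff]
    simp [-Pi.smul_apply, gam_smul, x.g.2.1, y.g.2.1]
  | succ n ih =>
    refine Subgroup.commutator_le.2 fun x hx y _ => ⟨GG.comm_g _ _, fun m => ?_⟩
    rw [GG.comm_a _ _ (ih hx).1, Pi.sub_apply, gam_smul, ← one_sub_mul, pow_succ']
    exact mul_dvd_mul (X_dvd_iff.2 (by simp [y.g.2.1])) ((ih hx).2 m)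

theorem lcs_comm (n : ℕ) (h : ∀ a : ι → E[X], (∀ m, X ^ (n + 1) ∣ a m) → ρ a = 1) :
    ⁅(⊤ : Subgroup (GG (Gam E p) ρ)).lowerCentralSeries (n + 1),
      (⊤ : Subgroup (GG (Gam E p) ρ)).lowerCentralSeries (n + 1)⁆ = ⊥ := by
  refine le_bot_iff.1 (Subgroup.commutator_le.2 fun x hx y hy => ?_)
  obtain ⟨x1, x2⟩ := lcs_le n hx
  obtain ⟨y1, y2⟩ := lcs_le n hy
  rw [Subgroup.mem_bot, commutatorElement_eq_one_iff_mul_comm]
  ext δ
  · simp [x1, y1, h (δ • x.a) fun m => (x2 m).mul_left _, h (δ • y.a) fun m => (y2 m).mul_left _,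
      add_comm]
  · simp [x1, y1, add_comm]
  · simp [x1, y1]

theorem phi3 [CharP E p] [CharP T p] :
    Phi p (Phi p (Phi p (⊤ : Subgroup (GG (Gam E p) ρ)))) = ⊥ := by
  let A : Subgroup (GG (Gam E p) ρ) :=
    { carrier := {x | x.g = 1 ∧ x.a = 0}
      one_mem' := ⟨rfl, rfl⟩
      mul_mem' := fun ha hb => ⟨by simp [ha.1, hb.1], by simp [ha.2, hb.2]⟩
      inv_mem' := fun ha => ⟨by simp [ha.1], by simp [ha.2]⟩ }
  have h1 : Phi p ⊤ ≤ LL ρ p 0 := Phi_le.2 ⟨fun x _ => ⟨by rw [GG.pow_g, gam_pow], by simp⟩,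
    fun x _ y _ => ⟨GG.comm_g _ _, by simp⟩⟩
  have h2 : Phi p (LL ρ p 0) ≤ A := Phi_le.2 ⟨fun x hx => ⟨by rw [GG.pow_g, gam_pow], by
    ext1 m
    simp [GG.pow_a, hx.1]⟩, fun x hx y hy => ⟨GG.comm_g _ _, by simp [GG.comm_a, hx.1, hy.1]⟩⟩
  refine le_bot_iff.1 ((Phi_mono ((Phi_mono h1).trans h2)).trans (Phi_le.2
    ⟨fun x hx => Subgroup.mem_bot.2 ?_, fun x hx y hy => Subgroup.mem_bot.2 ?_⟩))
  · ext δ
    · simp [GG.pow_f _ hx.2 hx.1]
    · simp [GG.pow_a, hx.2]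
    · simp [GG.pow_g, hx.1]
  · ext δ
    · simp [GG.comm_f _ _ hy.2 hy.1, hx.1, hx.2]
    · simp [GG.comm_a' _ _ hy.2 hy.1]
    · simp [GG.comm_g]

variable [hp : Fact p.Prime] [CharP E p]

theorem gam_h (γ : Gam E p) : (γ.1.1.coeff 1) ^ p = 0 ∧ ∃ h : E[X], h.coeff 0 = γ.1.1.coeff 1 ^
    (p - 1) ∧ ∀ (a : ι → E[X]) (m : ι),
      (∑ s ∈ Finset.range p, γ ^ s • a) m = X ^ (p - 1) * h * a m := by
  obtain ⟨h, hh⟩ : X ∣ γ.1.1 - 1 := X_dvd_iff.2 (by simp [γ.2.1])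
  have h1 : h.coeff 0 = γ.1.1.coeff 1 := by
    simpa [coeff_one] using (congrArg (fun x : E[X] => x.coeff 1) hh).symm
  have h2 : ∀ n, (h ^ n).coeff 0 = γ.1.1.coeff 1 ^ n := fun n => by
    rw [← h1]; exact map_pow constantCoeff h n
  refine ⟨?_, h ^ (p - 1), h2 _, fun a m => ?_⟩
  · have : (γ.1.1 - 1) ^ p = 0 := by
      rw [sub_pow_char, ← Units.val_pow_eq_pow_val, γ.2.2]; simp
    rw [hh, mul_pow] at this
    rw [← h2, ← coeff_X_pow_mul _ p, this, coeff_zero]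
  · rw [← mul_pow, ← hh, ← nu_eq, Finset.sum_apply, Finset.sum_mul]
    exact Finset.sum_congr rfl fun s _ => by simp [-Pi.smul_apply, gam_smul]

theorem cw_co {I : Type} [Ring I] (x : I → GG (Gam E p) ρ) (i : I) (m : ι) (t : ℕ) :
    ∃ b : E[X], (cw p x i t).a m = X ^ ((p - 1) * (t + 1)) * b ∧ b.coeff 0 =
      (∏ s ∈ Finset.range (t + 1), (x (i - s)).g.1.1.coeff 1 ^ (p - 1)) *
        ((x i).a m).coeff 0 := by
  induction t with
  | zero =>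
    obtain ⟨-, h, h1, h2⟩ := gam_h (ι := ι) (x i).g
    exact ⟨h * (x i).a m, by rw [cw, GG.pow_a, h2]; simp [mul_assoc], by simp [h1]⟩
  | succ t ih =>
    obtain ⟨b, b1, b2⟩ := ih
    obtain ⟨-, h, h1, h2⟩ := gam_h (ι := ι) (x (i - (t + 1 : ℕ))).g
    refine ⟨h * b, by rw [GG.cw_a gam_pow, h2, b1]; ring, ?_⟩
    rw [mul_coeff_zero, h1, b2, Finset.prod_range_succ _ (t + 1)]
    ring

end Pool.Agent.H.MP_ae074a_al
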