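import Mathlib

namespace Pool.Agent.H.MP_ae074a_al

/-- The word `w` is a law of the group `G`. -/
def Law (G : Type) [Group G] (w : FreeGroup ℕ) : Prop := ∀ φ : FreeGroup ℕ →* G, φ w = 1

/-- The variety of groups defined by the set of laws `V`. -/
def Var (V : Set (FreeGroup ℕ)) : Set GrpCat.{0} := {G | ∀ w ∈ V, Law G w}

end Pool.Agent.H.MP_ae074a_al
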