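import Pool.Agent.H.MP_ae074a_al.D

namespace Pool.Agent.H.MP_ae074a_al
open scoped commutatorElement
open Polynomial

section
variable {F E T κ : Type} [CommRing F] [CommRing E] [Algebra F E] [CommRing T] [Algebra F T]
  [Fintype κ] (p : ℕ) (u : Option κ → T) (hu : ∀ m, u m * u m = 0) (z μ : E →ₗ[F] T)

noncomputable def rr : AddChar (Option κ → E[X]) T :=
  rho u hu fun m => m.elim (μ.toAddMonoidHom.comp (lcoeff E (p - 1)).toAddMonoidHom)
    fun _ => z.toAddMonoidHom.comp (lcoeff E ((p - 1) * p)).toAddMonoidHom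

theorem rr_apply (a : Option κ → E[X]) : rr p u hu z μ a = (1 + u none * μ ((a none).coeff (p - 1)))
    * ∏ m, (1 + u (some m) * z ((a (some m)).coeff ((p - 1) * p))) :=
  Fintype.prod_option _

variable [hp : Fact p.Prime]

theorem rr_one (a : Option κ → E[X]) (h : ∀ m, X ^ ((p - 1) * p + 1) ∣ a m) :
    rr p u hu z μ a = 1 := by
  have := Nat.le_mul_of_pos_right (p - 1) hp.out.pos
  simp [rr_apply, X_pow_dvd_iff.1 (h _) _ (Nat.lt_succ_self _),
    X_pow_dvd_iff.1 (h _) _ (Nat.lt_succ_of_le this)]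

variable [CharP E p] {I : Type} [Ring I]

noncomputable def ph {ρ : AddChar (Option κ → E[X]) T} (x : I → GG (Gam E p) ρ) (i : I) : E :=
  ∏ s ∈ Finset.range p, (x (i - s)).g.1.1.coeff 1 ^ (p - 1)

theorem rr_cw (x : I → GG (Gam E p) (rr p u hu z μ)) (i : I) (δ : Gam E p) :
    rr p u hu z μ (δ • (cw p x i (p - 1)).a) =
      ∏ m, (1 + u (some m) * z (ph p x i * ((x i).a (some m)).coeff 0)) := by
  have h2 := hp.out.two_le
  have e : p - 1 + 1 = p := by omega
  rw [rr_apply]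
  obtain ⟨b, b1, -⟩ := cw_co x i none (p - 1)
  rw [gam_smul, b1, e, mul_left_comm, coeff_X_pow_mul', if_neg (by
    have : (p - 1) * 2 ≤ (p - 1) * p := Nat.mul_le_mul_left _ h2
    omega), map_zero, mul_zero, add_zero, one_mul]
  refine Finset.prod_congr rfl fun m _ => ?_
  obtain ⟨b, b1, b2⟩ := cw_co x i (some m) (p - 1)
  rw [e] at b1 b2
  rw [gam_smul, b1, mul_left_comm, coeff_X_pow_mul', if_pos le_rfl, Nat.sub_self, mul_coeff_zero,
    δ.2.1, one_mul, b2, ph]

variable [Fintype I]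

theorem vanish (x : I → GG (Gam E p) (rr p u hu z μ)) (hx : ∀ i, x i ∈ GS F p _)
    (h : ∏ i, z (ph p x i) = 0) (y y' : GG (Gam E p) (rr p u hu z μ)) :
    vl p x y y' Finset.univ.toList = 1 := by
  obtain ⟨h1, h2, h3⟩ := GG.vl_f gam_pow x y y' Finset.univ.toList
  refine GG.ext (funext fun δ => ?_) h2 h1
  suffices ∏ i, z (ph p x i) ∣ ∏ i, (rr p u hu z μ (δ • (cw p x i (p - 1)).a) - 1) by
    rw [h, zero_dvd_iff] at this
    rw [h3, Finset.prod_map_toList, this, zero_mul, GG.one_f]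
  refine Finset.prod_dvd_prod_of_dvd _ _ fun i _ => ?_
  rw [rr_cw]
  refine Finset.prod_induction _ (fun y => z (ph p x i) ∣ y - 1) (fun a b ha hb => ?_) (by simp)
    fun m _ => ?_
  · convert dvd_add (ha.mul_right b) hb using 1
    ring
  · obtain ⟨r, hr⟩ := hx i (some m)
    rw [hr, mul_comm (ph p x i), ← Algebra.smul_def, map_smul, Algebra.smul_def, add_sub_cancel_left]
    exact ((dvd_refl _).mul_left _).mul_left _

omit [Algebra F E] in
theorem ex_gam {θ : E} (h : θ ^ p = 0) : ∃ γ : Gam E p, γ.1.1.coeff 1 = θ := by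
  have : (1 + X * C θ) ^ p = 1 := by
    rw [add_pow_char, mul_pow, ← C_pow, h]; simp
  exact ⟨⟨Units.ofPowEqOne _ p this hp.out.ne_zero, by simp, Units.ext (by simp)⟩,
    by simp [coeff_one]⟩

end

theorem nonvanish {F E T I : Type} [CommRing F] [CommRing E] [Algebra F E] [CommRing T]
    [Algebra F T] [Fintype I] [Ring I] (p : ℕ) (u : Option I → T) (hu : ∀ m, u m * u m = 0)
    (z μ : E →ₗ[F] T) [hp : Fact p.Prime] [CharP E p] (θ : I → E) (hθ : ∀ i, θ i ^ p = 0)
    (hμ : μ (θ 0 ^ (p - 1)) = 1)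
    (h : (∏ m, u m) * ∏ i, z (∏ s ∈ Finset.range p, θ (i - s) ^ (p - 1)) ≠ 0) :
    ∃ (x : I → GS F p (rr p u hu z μ)) (y y' : GS F p (rr p u hu z μ)),
      vl p x y y' Finset.univ.toList ≠ 1 := by
  classical
  choose γ hγ using fun i => ex_gam p (hθ i)
  have hs : ∀ (f : Gam E p → T) (m : Option I) (g : Gam E p),
      (⟨f, Pi.single m 1, g⟩ : GG _ (rr p u hu z μ)) ∈ GS F p _ := fun f m g m' => by
    by_cases e : m' = m
    · exact ⟨1, by simp [e]⟩
    · exact ⟨0, by simp [e]⟩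
  refine ⟨fun i => ⟨_, hs 0 (some i) (γ i)⟩, ⟨⟨Pi.single 1 1, 0, 1⟩, fun m => ⟨0, by simp⟩⟩,
    ⟨_, hs 0 none (γ 0)⟩, fun e => h ?_⟩
  have e1 := congrArg (fun g => g.f 1) ((map_vl p (Subgroup.subtype _) _ _ _ _).symm.trans
    (congrArg (Subgroup.subtype _) e))
  have h1 : γ 0 ≠ 1 := fun e => by
    have h2 := hp.out.two_le
    have : θ 0 = 0 := by simpa [e, coeff_one] using (hγ 0).symm
    rw [this, zero_pow (by omega), map_zero] at hμ
    exact h (by rw [← mul_one (_ * _), ← hμ, mul_zero])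
  obtain ⟨-, b, b1, b2⟩ := gam_h (ι := Option I) (γ 0)
  simp only [(GG.vl_f gam_pow _ _ _ _).2.2, Finset.prod_map_toList, rr_cw, Subgroup.subtype_apply,
    map_one] at e1
  rw [GG.comm_f _ _ (GG.comm_a' _ _ rfl rfl) (GG.comm_g _ _), GG.pow_g, gam_pow, mul_one,
    GG.comm_f _ _ rfl rfl, one_smul, GG.pow_a, rr_apply] at e1
  simp only [b2] at e1
  rw [Finset.prod_congr rfl (g := fun i => u (some i) * z (∏ s ∈ Finset.range p,
    θ (i - s) ^ (p - 1))) fun i _ => by
      rw [Finset.prod_eq_single i (fun m _ hm => by simp [hm]) (by simp)]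
      simp [ph, hγ]] at e1
  simp [h1, coeff_X_pow_mul', b1, hγ, hμ, Finset.prod_mul_distrib] at e1
  rw [Fintype.prod_option]
  linear_combination e1

end Pool.Agent.H.MP_ae074a_al
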