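import Pool.Agent.H.MP_ae074a_al.E
import Pool.Agent.H.MP_ae074a_al.Defs

namespace Pool.Agent.H.MP_ae074a_al
open scoped commutatorElement

variable (p : ℕ) [hp : Fact p.Prime]

instance nz (j : ℕ) : NeZero (p * (j + 1)) := ⟨mul_ne_zero hp.out.ne_zero j.succ_ne_zero⟩

noncomputable def vv (j : ℕ) : FreeGroup ℕ :=
  vl p (fun i : ZMod (p * (j + 1)) => FreeGroup.of (i.val + 2)) (.of 0) (.of 1) Finset.univ.toList

theorem law_vv (G : Type) [Group G] (j : ℕ) : Law G (vv p j) ↔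
    ∀ (x : ZMod (p * (j + 1)) → G) (y y' : G), vl p x y y' Finset.univ.toList = 1 := by
  refine ⟨fun h x y y' => ?_, fun h φ => by rw [vv, map_vl, h]⟩
  have := h (FreeGroup.lift fun n => Nat.casesOn n y fun n => Nat.casesOn n y' fun n => x n)
  simpa [vv, map_vl] using this

theorem win' {n : ℕ} [NeZero n] {E : Type} [CommRing E] [Algebra (ZMod p) E]
    (σ : ZMod p → E →ₐ[ZMod p] E) (h0 : ∀ x, σ 0 x = x) (θ : ZMod n → E) (hθ : ∀ i, θ i ^ p = 0)
    (hn : p ∣ n) : (∏ s ∈ Finset.range p, θ (0 - s) ^ (p - 1)) *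
      ∏ i ∈ Finset.univ.erase (0 : ZMod n), tr σ (∏ s ∈ Finset.range p, θ (i - s) ^ (p - 1)) =
      (p - 1).factorial • ∏ j, ∏ h, σ h (θ j) ^ (p - 1) := by
  rw [← good_card hn, ← win (fun j h => σ h (θ j) ^ (p - 1)) fun j h =>
    sq_zero (by rw [← map_pow, hθ, map_zero])]
  simp [tr_apply, h0]

def ee (κ : Type) (h : ZMod p) : (κ × ZMod p → ZMod p) ≃+ (κ × ZMod p → ZMod p) where
  toFun f q := f (q.1, q.2 - h)
  invFun f q := f (q.1, q.2 + h)
  left_inv f := by ext; simp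
  right_inv f := by ext; simp
  map_add' _ _ := rfl

theorem exT (k : ℕ) : ∃ (E T : Type) (_ : CommRing E) (_ : Algebra (ZMod p) E) (_ : CharP E p)
    (_ : CommRing T) (_ : Algebra (ZMod p) T) (z : E →ₗ[ZMod p] T),
    (∀ j ≠ k, ∀ θ : ZMod (p * (j + 1)) → E, (∀ i, θ i ^ p = 0) →
      ∏ i, z (∏ s ∈ Finset.range p, θ (i - s) ^ (p - 1)) = 0) ∧
    ∃ θ : ZMod (p * (k + 1)) → E, (∀ i, θ i ^ p = 0) ∧ θ 0 ^ (p - 1) ≠ 0 ∧
      ∏ i, z (∏ s ∈ Finset.range p, θ (i - s) ^ (p - 1)) ≠ 0 := by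
  classical
  let κ := ZMod (p * (k + 1))
  let E := AddMonoidAlgebra (ZMod p) (κ × ZMod p → ZMod p)
  let σ : ZMod p → E →ₐ[ZMod p] E := fun h =>
    ((AddMonoidAlgebra.domCongr (ZMod p) (ZMod p) (ee p κ h) : E ≃ₐ[ZMod p] E) : E →ₐ[ZMod p] E)
  have hc : ∀ h x m, (σ h x).coeff m = x.coeff fun q => m (q.1, q.2 + h) := fun h x m =>
    AddMonoidAlgebra.coeff_domCongr (ee p κ h) x m
  have hσ : ∀ a b x, σ a (σ b x) = σ (a + b) x := fun a b x => by
    ext m
    simp only [hc, add_assoc, add_comm a]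
  have h0 : ∀ x, σ 0 x = x := fun x => by
    ext m
    simp only [hc, add_zero]
  let l : E →ₗ[ZMod p] ZMod p :=
    { toFun := fun x => x.coeff 0
      map_add' := fun _ _ => rfl
      map_smul' := fun _ _ => rfl }
  have hl : ∀ h x, l (σ h x) = l x := fun h x => hc h x 0
  obtain ⟨T, _, _, z, hz⟩ := tate σ hσ h0 l hl (p * (k + 1) - 1)
  have hx : ∀ j h, σ h (xv (ZMod p) _ p (j, 0)) = xv (ZMod p) _ p (j, h) := fun j h => by
    rw [xv, map_sub, map_one]
    refine congrArg (· - 1) ((AddMonoidAlgebra.domCongr_single (ee p κ h) _ _).trans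
      (congrArg (AddMonoidAlgebra.single · 1) (funext fun q => ?_)))
    simp [ee, Pi.single_apply, Prod.ext_iff, sub_eq_zero]
  have h1 := xv_prod (ZMod p) (κ × ZMod p) p
  refine ⟨E, T, _, _, inferInstance, _, _, z, fun j hj θ hθ => ?_,
    fun i => xv (ZMod p) _ p (i, 0), fun i => xv_pow _ _ _ _, fun h => ?_, ?_⟩
  · rw [← Finset.mul_prod_erase _ _ (Finset.mem_univ 0)]
    refine (hz _ _ _ _).1 ?_ fun h => hj ?_
    · rw [win' p σ h0 θ hθ (dvd_mul_right _ _), map_nsmul, tr_apply]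
      have : ∀ a, σ a (∏ j, ∏ h, σ h (θ j) ^ (p - 1)) = ∏ j, ∏ h, σ h (θ j) ^ (p - 1) := fun a => by
        simp only [map_prod, map_pow, hσ]
        exact Finset.prod_congr rfl fun j _ =>
          Equiv.prod_comp (Equiv.addLeft a) fun h => σ h (θ j) ^ (p - 1)
      simp [this]
    · rw [Finset.card_erase_of_mem (Finset.mem_univ _), Finset.card_univ, ZMod.card] at h
      have h2 := NeZero.pos (p * (j + 1))
      have h3 := NeZero.pos (p * (k + 1))
      have : p * (j + 1) = p * (k + 1) := by omega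
      simpa [hp.out.ne_zero] using this
  · rw [Finset.prod_eq_zero (Finset.mem_univ ((0, 0) : κ × ZMod p)) h] at h1
    simp at h1
  · rw [← Finset.mul_prod_erase _ _ (Finset.mem_univ 0)]
    refine (hz _ _ _ _).2 (by simp) ?_
    rw [win' p σ h0 (fun i => xv (ZMod p) _ p (i, 0)) (fun i => xv_pow _ _ _ _) (dvd_mul_right _ _), map_nsmul]
    simp only [hx]
    rw [← Fintype.prod_prod_type' fun j h => xv (ZMod p) (κ × ZMod p) p (j, h) ^ (p - 1)]
    have := hp.out.pos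
    rw [show l _ = 1 from h1, nsmul_eq_mul, mul_one, Ne, ZMod.natCast_eq_zero_iff,
      hp.out.dvd_factorial]
    omega

theorem bot_of_inj {G G' : Type} [Group G] [Group G'] {f : G →* G'} (hf : Function.Injective f)
    {K : Subgroup G} {L : Subgroup G'} (h : K.map f ≤ L) (hL : L = ⊥) : K = ⊥ :=
  (Subgroup.map_eq_bot_iff_of_injective _ hf).1 (le_bot_iff.1 (hL ▸ h))

theorem exG (k : ℕ) : ∃ G : GrpCat.{0}, Phi p (Phi p (Phi p (⊤ : Subgroup G))) = ⊥ ∧
    ⁅(⊤ : Subgroup G).lowerCentralSeries ((p - 1) * p + 1),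
      (⊤ : Subgroup G).lowerCentralSeries ((p - 1) * p + 1)⁆ = ⊥ ∧
    ∀ j, Law G (vv p j) ↔ j ≠ k := by
  classical
  obtain ⟨E, T0, _, _, _, _, _, z, h1, θ, h2, h3, h4⟩ := exT p k
  have : Nontrivial T0 := nontrivial_of_ne _ _ h4
  have : CharP T0 p := charP_of_injective_algebraMap (algebraMap (ZMod p) T0).injective p
  let κ := ZMod (p * (k + 1))
  let T := AddMonoidAlgebra T0 (Option κ → ZMod p)
  obtain ⟨μ, hμ⟩ := Module.Projective.exists_dual_eq_one (ZMod p) h3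
  let u : Option κ → T := fun m => xv T0 _ p m ^ (p - 1)
  have hu : ∀ m, u m * u m = 0 := fun m => sq_zero (xv_pow _ _ _ _)
  let z' : E →ₗ[ZMod p] T := (IsScalarTower.toAlgHom (ZMod p) T0 T).toLinearMap ∘ₗ z
  have hz : ∀ {I : Type} [Fintype I] (e : I → E),
      ∏ i, z' (e i) = algebraMap T0 T (∏ i, z (e i)) := fun e => (map_prod (algebraMap T0 T) _ _).symm
  let μ' : E →ₗ[ZMod p] T := Algebra.linearMap (ZMod p) T ∘ₗ μ
  refine ⟨GrpCat.of (GS (ZMod p) p (rr p u hu z' μ')), bot_of_inj (Subgroup.subtype_injective _) ?_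
    phi3, bot_of_inj (Subgroup.subtype_injective _) ?_ (lcs_comm _ (rr_one p u hu z' μ')),
    fun j => (law_vv p _ j).trans ⟨?_, fun hj x y y' => Subtype.ext ?_⟩⟩
  · rw [Phi_map, Phi_map, Phi_map]
    exact Phi_mono (Phi_mono (Phi_mono le_top))
  · rw [Subgroup.map_commutator, Subgroup.map_lowerCentralSeries]
    exact Subgroup.commutator_mono (Subgroup.lowerCentralSeries_mono _ le_top)
      (Subgroup.lowerCentralSeries_mono _ le_top)
  · rintro h rfl
    obtain ⟨x, y, y', e⟩ := nonvanish p u hu z' μ' θ h2 (by simp [μ', hμ]) fun e => h4 (by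
      rw [hz, mul_comm, ← Algebra.smul_def] at e
      have := (AddMonoidAlgebra.coeff_smul_apply _ _ _).symm.trans
        (congrArg (fun x : T => x.coeff 0) e)
      rwa [xv_prod, smul_eq_mul, mul_one] at this)
    exact e (h x y y')
  · refine (map_vl p (Subgroup.subtype _) _ _ _ _).trans (vanish p u hu z' μ' _
      (fun i => (x i).2) ?_ _ _)
    rw [hz]
    simp only [ph]
    rw [h1 j hj (fun i => (x i).1.g.1.1.coeff 1) fun i => (gam_h (ι := κ) _).1, map_zero]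

end Pool.Agent.H.MP_ae074a_al
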