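import Pool.Agent.H.MP_ae074a_al.F

namespace Pool.Agent.H.MP_ae074a_al
open scoped commutatorElement

theorem fin_supp {H : Type} [Group H] (w : FreeGroup H) : ∃ S : Set H, S.Finite ∧
    ∀ f : H → H, (∀ x ∈ S, f x = x) → FreeGroup.lift f w = FreeGroup.lift id w := by
  induction w using FreeGroup.induction_on with
  | C1 => exact ⟨∅, Set.finite_empty, fun f _ => by simp⟩
  | of x => exact ⟨{x}, Set.finite_singleton x, fun f h => by simpa using h⟩
  | inv_of x _ => exact ⟨{x}, Set.finite_singleton x, fun f h => by simpa using h⟩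
  | mul a b ha hb =>
    obtain ⟨S, h1, h2⟩ := ha
    obtain ⟨S', h3, h4⟩ := hb
    exact ⟨S ∪ S', h1.union h3, fun f h => by
      rw [map_mul, map_mul, h2 f fun x hx => h x (Or.inl hx), h4 f fun x hx => h x (Or.inr hx)]⟩

theorem verbal (W : ∀ (G : Type) [Group G], Subgroup G → Subgroup G)
    (h1 : ∀ (G G' : Type) [Group G] [Group G'] (f : G →* G'), (W G ⊤).map f = W G' (.map f ⊤))
    (h2 : ∀ (G : Type) [Group G] (K : Subgroup G), W G K ≤ W G ⊤) (C : Set GrpCat.{0})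
    (hC : ∀ G ∈ C, W G ⊤ = ⊥) (H : GrpCat.{0}) (hH : H ∈ Var {w | ∀ G ∈ C, Law G w}) :
    W H ⊤ = ⊥ := by
  have hs : (⊤ : Subgroup (FreeGroup H)).map (FreeGroup.lift id) = ⊤ :=
    Subgroup.map_top_of_surjective _ fun x => ⟨.of x, by simp⟩
  rw [← hs, ← h1, eq_bot_iff]
  rintro _ ⟨w, hw, rfl⟩
  obtain ⟨S, s1, s2⟩ := fin_supp w
  obtain ⟨i, hi⟩ := Set.countable_iff_exists_injOn.1 s1.countable
  rw [Subgroup.mem_bot, ← s2 _ fun x hx => hi.leftInvOn_invFunOn hx]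
  have := hH (FreeGroup.map i w) (fun G hG φ => by
    have := h2 G _ (h1 _ _ (φ.comp (FreeGroup.map i)) ▸ Subgroup.mem_map_of_mem _ hw)
    rwa [hC G hG] at this) (FreeGroup.lift (Function.invFunOn i S))
  rw [← this]
  exact DFunLike.congr_fun (show FreeGroup.lift _ = (FreeGroup.lift (Function.invFunOn i S)).comp
    (FreeGroup.map i) by ext; simp) w

theorem fam (p : ℕ) [Fact p.Prime] : ∃ V : Set ℕ → Set (FreeGroup ℕ),
    Function.Injective (fun J => Var (V J)) ∧ ∀ J, ∀ G ∈ Var (V J),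
      Phi p (Phi p (Phi p (⊤ : Subgroup G))) = ⊥ ∧
      ⁅(⊤ : Subgroup G).lowerCentralSeries ((p - 1) * p + 1),
        (⊤ : Subgroup G).lowerCentralSeries ((p - 1) * p + 1)⁆ = ⊥ := by
  choose G h1 h2 h3 using exG p
  have key : ∀ (J : Set ℕ) k, G k ∈ Var {w | ∀ H ∈ G '' J, Law H w} ↔ k ∈ J := fun J k =>
    ⟨fun h => by_contra fun hk => (h3 k k).1 (h _ (by
      rintro _ ⟨j, hj, rfl⟩
      exact (h3 j k).2 fun e => hk (e ▸ hj))) rfl, fun h w hw => hw _ ⟨k, h, rfl⟩⟩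
  refine ⟨fun J => {w | ∀ H ∈ G '' J, Law H w}, fun J J' h => Set.ext fun k => ?_,
    fun J H hH => ⟨verbal (fun _ _ K => Phi p (Phi p (Phi p K))) (fun _ _ _ _ f => ?_)
      (fun _ _ _ => Phi_mono (Phi_mono (Phi_mono le_top))) _ ?_ H hH,
    verbal (fun _ _ K => ⁅K.lowerCentralSeries _, K.lowerCentralSeries _⁆) (fun _ _ _ _ f => ?_)
      (fun _ _ _ => Subgroup.commutator_mono (Subgroup.lowerCentralSeries_mono _ le_top)
      (Subgroup.lowerCentralSeries_mono _ le_top)) _ ?_ H hH⟩⟩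
  · rw [← key, ← key]
    exact Set.ext_iff.1 h _
  · simp only [Phi_map]
  · rintro _ ⟨k, -, rfl⟩
    exact h1 k
  · simp only [Subgroup.map_commutator, Subgroup.map_lowerCentralSeries]
  · rintro _ ⟨k, -, rfl⟩
    exact h2 k

theorem Phi_normal {p : ℕ} {G : Type} [Group G] {K : Subgroup G} (h : K.Normal) :
    (Phi p K).Normal := ⟨fun x hx g => by
  have : (Phi p K).map (MulAut.conj g).toMonoidHom ≤ Phi p K := by
    rw [Phi_map]
    refine Phi_mono ?_
    rintro _ ⟨y, hy, rfl⟩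
    exact h.conj_mem y hy g
  exact this ⟨x, hx, rfl⟩⟩

theorem Phi_le_self {p : ℕ} {G : Type} [Group G] {K : Subgroup G} : Phi p K ≤ K :=
  Phi_le.2 ⟨fun _ hx => pow_mem hx p, fun _ hx _ hy =>
    mul_mem (mul_mem (mul_mem hx hy) (inv_mem hx)) (inv_mem hy)⟩

end Pool.Agent.H.MP_ae074a_al
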